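import Pool.Agent.helper90.DH.SpecI

/-!
# Project d2 (MP_5823cb_al), row iSP0: the sparsity hypothesis for the first batch is void (helper3)
-/

set_option autoImplicit false

open Filter Topology MeasureTheory
open scoped commutatorElement

namespace Pool.Agent.helper90.DH

open Pool.Agent.helper64.D2

theorem SP0 : SP0_stmt := by
  intro th w0 ρ c hρ hth r k hr hk
  have h1 : r ≤ ρ ^ 2 / 4 := by
    refine hr.trans ?_
    unfold bu
    simp only [if_true]
    exact Nat.div_le_div_right (Nat.sub_le _ _)
  have hk0 : k = 0 := by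
    rcases Nat.eq_zero_or_pos k with h | h
    · exact h
    · exfalso
      have h2 : ρ ^ 2 ≤ ρ ^ 3 := Nat.pow_le_pow_right hρ (by norm_num)
      have h3 : 1 * ρ ^ 3 ≤ k * ρ ^ 3 := Nat.mul_le_mul_right _ h
      have h4 : 0 < ρ ^ 2 := by positivity
      have h5 : 2 * k * ρ ^ 3 = 2 * (k * ρ ^ 3) := by ring
      omega
  subst hk0
  intro p E _ hE _
  have hE0 : E = ∅ := by
    rw [Finset.eq_empty_iff_forall_notMem]
    intro e he
    exact absurd (hE e he).2.1 (Nat.not_lt_zero _)
  rw [hE0]
  simp

end Pool.Agent.helper90.DH
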